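import Pool.Agent.Lib_helper99.FGA.Wanted

/-! FGA, block A14: the second order asymptotic for `f_M`, uniform in `M` -/

set_option autoImplicit false

namespace Pool.Agent.FGA

open Finset Pool.Agent.Var35 Pool.Agent.Var73 Pool.Agent.PV Pool.Agent.FGP
open scoped ArithmeticFunction ArithmeticFunction.Moebius

/-! ### Rearrangement (as in FGP_P14_helper61) -/

theorem a14_dc (N : ℕ) (g : ℕ → ℕ → ℝ) :
    ∑ m ∈ Icc 1 N, ∑ d ∈ m.divisors, g d (m / d) =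
      ∑ d ∈ Icc 1 N, ∑ i ∈ Icc 1 (N / d), g d i := by
  rw [sum_sigma', sum_sigma']
  refine sum_bij' (fun x _ => ⟨x.2, x.1 / x.2⟩) (fun x _ => ⟨x.1 * x.2, x.1⟩) ?_ ?_ ?_ ?_ ?_
  · rintro ⟨m, d⟩ hx
    simp only [mem_sigma, mem_Icc, Nat.mem_divisors] at hx ⊢
    obtain ⟨⟨h1, h2⟩, ⟨c, hc⟩, h4⟩ := hx
    have hd : 0 < d := Nat.pos_of_ne_zero fun h => by rw [h, zero_mul] at hc; omega
    have hc0 : 0 < c := Nat.pos_of_ne_zero fun h => by rw [h, mul_zero] at hc; omega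
    have h5 : m / d = c := by rw [hc, Nat.mul_div_cancel_left _ hd]
    rw [h5]
    refine ⟨⟨hd, ?_⟩, hc0, ?_⟩
    · calc d = d * 1 := (mul_one d).symm
        _ ≤ d * c := Nat.mul_le_mul_left d hc0
        _ = m := hc.symm
        _ ≤ N := h2
    · rw [Nat.le_div_iff_mul_le hd, mul_comm, ← hc]
      exact h2
  · rintro ⟨d, i⟩ hx
    simp only [mem_sigma, mem_Icc, Nat.mem_divisors] at hx ⊢
    obtain ⟨⟨h1, h2⟩, h3, h4⟩ := hx
    have h5 : i * d ≤ N := (Nat.le_div_iff_mul_le h1).1 h4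
    have h6 : 0 < d * i := Nat.mul_pos h1 h3
    refine ⟨⟨h6, by rw [mul_comm]; exact h5⟩, Dvd.intro i rfl, h6.ne'⟩
  · rintro ⟨m, d⟩ hx
    simp only [mem_sigma, mem_Icc, Nat.mem_divisors] at hx
    obtain ⟨⟨h1, h2⟩, h3, h4⟩ := hx
    simp only [Nat.mul_div_cancel' h3]
  · rintro ⟨d, i⟩ hx
    simp only [mem_sigma, mem_Icc] at hx
    obtain ⟨⟨h1, h2⟩, h3, h4⟩ := hx
    simp only [Nat.mul_div_cancel_left i h1]
  · rintro ⟨m, d⟩ _
    rfl

theorem a14_re1 (W : ℝ) (F : ℕ → ℝ) :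
    ∑ m ∈ Icc 1 ⌊W⌋₊, (W - m) * ∑ d ∈ m.divisors, (1 / (d : ℝ)) * F d =
      ∑ d ∈ Icc 1 ⌊W⌋₊, F d * Ph1 (W / d) := by
  have h1 : ∑ m ∈ Icc 1 ⌊W⌋₊, (W - m) * ∑ d ∈ m.divisors, (1 / (d : ℝ)) * F d =
      ∑ m ∈ Icc 1 ⌊W⌋₊, ∑ d ∈ m.divisors,
        (fun d i : ℕ => (W - (d : ℝ) * i) * ((1 / (d : ℝ)) * F d)) d (m / d) := by
    refine sum_congr rfl fun m hm => ?_
    rw [mul_sum]
    refine sum_congr rfl fun d hd => ?_
    have h2 : ((d : ℝ) * ((m / d : ℕ) : ℝ)) = m := by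
      rw [← Nat.cast_mul, Nat.mul_div_cancel' (Nat.dvd_of_mem_divisors hd)]
    show _ = (W - (d : ℝ) * ((m / d : ℕ) : ℝ)) * ((1 / (d : ℝ)) * F d)
    rw [h2]
  refine h1.trans ((a14_dc ⌊W⌋₊ (fun d i : ℕ => (W - (d : ℝ) * i) *
    ((1 / (d : ℝ)) * F d))).trans ?_)
  refine sum_congr rfl fun d hd => ?_
  rw [mem_Icc] at hd
  have hd0 : (d : ℝ) ≠ 0 := by
    have : 0 < d := hd.1
    positivity
  unfold Ph1
  rw [Nat.floor_div_natCast, mul_sum]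
  refine sum_congr rfl fun i _ => ?_
  field_simp

theorem a14_re2 (W : ℝ) (b : ℕ → ℝ) :
    ∑ d ∈ Icc 1 ⌊W⌋₊, (∑ e ∈ d.divisors, b e) * Ph1 (W / d) =
      ∑ e ∈ Icc 1 ⌊W⌋₊, b e * Ps1 (W / e) := by
  have h1 : ∑ d ∈ Icc 1 ⌊W⌋₊, (∑ e ∈ d.divisors, b e) * Ph1 (W / d) =
      ∑ d ∈ Icc 1 ⌊W⌋₊, ∑ e ∈ d.divisors,
        (fun e j : ℕ => b e * Ph1 (W / e / j)) e (d / e) := by
    refine sum_congr rfl fun d hd => ?_
    rw [sum_mul]
    refine sum_congr rfl fun e he => ?_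
    have h2 : ((e : ℝ) * ((d / e : ℕ) : ℝ)) = d := by
      rw [← Nat.cast_mul, Nat.mul_div_cancel' (Nat.dvd_of_mem_divisors he)]
    show _ = b e * Ph1 (W / (e : ℝ) / ((d / e : ℕ) : ℝ))
    rw [div_div, h2]
  refine h1.trans ((a14_dc ⌊W⌋₊ (fun e j : ℕ => b e * Ph1 (W / e / j))).trans ?_)
  refine sum_congr rfl fun e _ => ?_
  unfold Ps1
  rw [Nat.floor_div_natCast, mul_sum]

/-- the sum over `k` as a sum over `i` -/
theorem a14_sum (h10 : A10) (M : ℕ) (y : ℝ) (hM : 1 ≤ M) (h2 : 2 ∣ M) :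
    ∑ k ∈ Icc 1 ⌊y⌋₊, (y - k) * FM M k = ∑ e ∈ Icc 1 ⌊y⌋₊, bM M e * Ps1 (y / e) := by
  rw [← a14_re2, ← a14_re1 y (fun d => ∑ e ∈ d.divisors, bM M e)]
  refine sum_congr rfl fun k hk => ?_
  rw [mem_Icc] at hk
  rw [h10 M k hM h2 hk.1]

theorem a14_Ps_zero (x : ℝ) (hx : x < 1) : Ps1 x = 0 := by
  unfold Ps1
  rw [Nat.floor_eq_zero.2 hx]
  simp

theorem a14_sum_eq (M : ℕ) (W : ℝ) (hW : 0 ≤ W) :
    Summable (fun e : ℕ => bM M e * Ps1 (W / e)) ∧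
    ∑' e : ℕ, bM M e * Ps1 (W / e) = ∑ e ∈ Icc 1 ⌊W⌋₊, bM M e * Ps1 (W / e) := by
  have h1 : ∀ e ∉ Icc 1 ⌊W⌋₊, bM M e * Ps1 (W / e) = 0 := by
    intro e he
    rw [mem_Icc, not_and_or] at he
    rw [a14_Ps_zero, mul_zero]
    rcases Nat.eq_zero_or_pos e with h | h
    · subst h
      simp
    · rcases he with he | he
      · omega
      · have he0 : (0 : ℝ) < e := by exact_mod_cast h
        rw [div_lt_one he0]
        exact (Nat.floor_lt hW).1 (by omega)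
  exact ⟨summable_of_ne_finset_zero h1, tsum_eq_sum h1⟩

/-! ### The main term -/

theorem a14_sums (M : ℕ) (hs : Summable (fun d : ℕ => |bM M d| * (1 + Real.log d) / d)) :
    Summable (fun d : ℕ => bM M d / d) ∧ Summable (fun d : ℕ => bM M d / (d : ℝ) ^ 2) ∧
      Summable (fun d : ℕ => bM M d * Real.log d / d) := by
  have hlog : ∀ d : ℕ, 0 ≤ Real.log d := fun d => Real.log_natCast_nonneg d
  refine ⟨?_, ?_, ?_⟩
  · refine Summable.of_norm_bounded hs fun d => ?_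
    rw [norm_div, Real.norm_eq_abs, Real.norm_natCast]
    refine div_le_div_of_nonneg_right ?_ (Nat.cast_nonneg d)
    nlinarith [abs_nonneg (bM M d), hlog d, mul_nonneg (abs_nonneg (bM M d)) (hlog d)]
  · refine Summable.of_norm_bounded hs fun d => ?_
    rw [norm_div, Real.norm_eq_abs, norm_pow, Real.norm_natCast]
    rcases Nat.eq_zero_or_pos d with h | h
    · subst h
      simp
    · have hd : (1 : ℝ) ≤ d := by exact_mod_cast h
      rw [div_le_div_iff₀ (by positivity) (by positivity)]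
      have h2 : |bM M d| ≤ |bM M d| * (1 + Real.log d) :=
        le_mul_of_one_le_right (abs_nonneg _) (by linarith [hlog d])
      have h3 : (d : ℝ) ≤ (d : ℝ) ^ 2 := by nlinarith
      exact mul_le_mul h2 h3 (by positivity)
        (mul_nonneg (abs_nonneg _) (by linarith [hlog d]))
  · refine Summable.of_norm_bounded hs fun d => ?_
    rw [norm_div, norm_mul, Real.norm_eq_abs, Real.norm_eq_abs, Real.norm_natCast,
      abs_of_nonneg (hlog d)]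
    refine div_le_div_of_nonneg_right ?_ (Nat.cast_nonneg d)
    nlinarith [abs_nonneg (bM M d), hlog d, mul_nonneg (abs_nonneg (bM M d)) (hlog d)]

theorem a14_mexp (M : ℕ) (W : ℝ) (hW : 0 < W) (e : ℕ) : bM M e * M1 (W / e) =
    Real.pi ^ 2 / 12 * W ^ 2 * (bM M e / (e : ℝ) ^ 2) +
      W / 2 * (1 - Real.eulerMascheroniConstant - Real.log (2 * Real.pi) - Real.log W) *
        (bM M e / e) + W / 2 * (bM M e * Real.log e / e) := by
  rcases Nat.eq_zero_or_pos e with h | h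
  · subst h
    simp [M1]
  · have he : (0 : ℝ) < e := by exact_mod_cast h
    unfold M1
    rw [Real.log_div hW.ne' he.ne']
    field_simp
    ring

theorem a14_main (h11 : A11) (C2 : ℝ) (hC2 : IsC2 C2) (M : ℕ) (hM : 1 ≤ M) (h2 : 2 ∣ M) (y : ℝ)
    (hy : 0 < y) :
    Summable (fun e : ℕ => bM M e * M1 (y / e)) ∧
      GM C2 M * ∑' e : ℕ, bM M e * M1 (y / e) =
        (M / Nat.totient M : ℝ) * y ^ 2 / 2 - y / 2 * (Real.log y + HC.CQ M - 1) := by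
  obtain ⟨hs, hc⟩ := h11 M hM h2
  obtain ⟨c1, c2, c3⟩ := hc C2 hC2
  obtain ⟨s1, s2, s3⟩ := a14_sums M hs
  simp only [a14_mexp M y hy]
  have t1 := s2.mul_left (Real.pi ^ 2 / 12 * y ^ 2)
  have t2 := s1.mul_left (y / 2 * (1 - Real.eulerMascheroniConstant -
    Real.log (2 * Real.pi) - Real.log y))
  have t3 := s3.mul_left (y / 2)
  refine ⟨(t1.add t2).add t3, ?_⟩
  rw [(t1.add t2).tsum_add t3, t1.tsum_add t2, tsum_mul_left, tsum_mul_left, tsum_mul_left, c3]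
  unfold HC.CQ
  set A := ∑' d : ℕ, bM M d / d
  set B := ∑' d : ℕ, bM M d / (d : ℝ) ^ 2
  set L := ∑ p ∈ M.primeFactors, Real.log p / ((p : ℝ) - 1)
  set κ := 1 - Real.eulerMascheroniConstant - Real.log (2 * Real.pi) with hκ
  have hpi : Real.pi ≠ 0 := Real.pi_ne_zero
  calc GM C2 M * (Real.pi ^ 2 / 12 * y ^ 2 * B + y / 2 * (κ - Real.log y) * A +
        y / 2 * (-L * A))
      = Real.pi ^ 2 / 12 * y ^ 2 * (GM C2 M * B) +
          (y / 2 * (κ - Real.log y) - y / 2 * L) * (GM C2 M * A) := by ring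
    _ = Real.pi ^ 2 / 12 * y ^ 2 * ((M / Nat.totient M : ℝ) * (6 / Real.pi ^ 2)) +
          (y / 2 * (κ - Real.log y) - y / 2 * L) * 1 := by
        rw [c1, c2]
    _ = (M / Nat.totient M : ℝ) * y ^ 2 / 2 + (y / 2 * (κ - Real.log y) - y / 2 * L) := by
        field_simp
        ring
    _ = (M / Nat.totient M : ℝ) * y ^ 2 / 2 - y / 2 * (Real.log y +
          (Real.eulerMascheroniConstant + Real.log (2 * Real.pi) + L) - 1) := by
        rw [hκ]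
        ring

/-! ### The error term -/

theorem a14_term (η C : ℝ) (hη : 0 < η) (hC : 0 < C)
    (h : ∀ x : ℝ, 0 < x → |Ps1 x - M1 x| ≤ η * x + C * x ^ (3 / 4 : ℝ)) (y : ℝ) (hy : 0 < y)
    (e : ℕ) : |Ps1 (y / e) - M1 (y / e)| ≤
      (η * y + C * y ^ (3 / 4 : ℝ)) * (e : ℝ) ^ (-(3 / 4) : ℝ) := by
  have hn : 0 ≤ η * y + C * y ^ (3 / 4 : ℝ) := by positivity
  rcases Nat.eq_zero_or_pos e with h0 | h0
  · subst h0
    have h1 : Ps1 (y / ((0 : ℕ) : ℝ)) - M1 (y / ((0 : ℕ) : ℝ)) = 0 := by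
      rw [Nat.cast_zero, div_zero, a14_Ps_zero 0 one_pos]
      unfold M1
      simp
    rw [h1, abs_zero]
    exact mul_nonneg hn (Real.rpow_nonneg (Nat.cast_nonneg _) _)
  · have he : (0 : ℝ) < e := by exact_mod_cast h0
    have he1 : (1 : ℝ) ≤ e := by exact_mod_cast h0
    refine (h (y / e) (by positivity)).trans ?_
    rw [Real.div_rpow hy.le he.le, add_mul, Real.rpow_neg he.le]
    have h1 : (e : ℝ) ^ (3 / 4 : ℝ) ≤ e := by
      calc (e : ℝ) ^ (3 / 4 : ℝ) ≤ (e : ℝ) ^ (1 : ℝ) :=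
            Real.rpow_le_rpow_of_exponent_le he1 (by norm_num)
        _ = e := Real.rpow_one _
    have h2 : (e : ℝ)⁻¹ ≤ ((e : ℝ) ^ (3 / 4 : ℝ))⁻¹ :=
      inv_anti₀ (Real.rpow_pos_of_pos he _) h1
    have h3 : η * (y / e) ≤ η * y * ((e : ℝ) ^ (3 / 4 : ℝ))⁻¹ := by
      rw [div_eq_mul_inv, ← mul_assoc]
      exact mul_le_mul_of_nonneg_left h2 (by positivity)
    have h4 : C * (y ^ (3 / 4 : ℝ) / (e : ℝ) ^ (3 / 4 : ℝ)) =
        C * y ^ (3 / 4 : ℝ) * ((e : ℝ) ^ (3 / 4 : ℝ))⁻¹ := by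
      rw [div_eq_mul_inv, mul_assoc]
    linarith

theorem a14_ks (M : ℕ) : 0 ≤ ks M := by
  unfold ks
  exact prod_nonneg fun p _ => by positivity

theorem A14_pr (h10 : A10) (h11 : A11) (h12 : A12) (h13 : A13) : A14 := by
  intro C2 hC2 η hη
  have hC2p : 0 < C2 := hC2.1
  obtain ⟨⟨C, hC, hb⟩, hG⟩ := h12
  set η' := η / (2 * C2 * C) with hη'
  have hη'p : 0 < η' := by positivity
  obtain ⟨C', hC', hx⟩ := h13 η' hη'p
  refine ⟨C' * (2 * C2 * C), by positivity, fun M y hM h2 hy => ?_⟩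
  obtain ⟨hsb, hbb⟩ := hb M hM h2
  obtain ⟨hG0, hG1⟩ := hG C2 hC2p M hM
  obtain ⟨sm, em⟩ := a14_main h11 C2 hC2 M hM h2 y hy
  obtain ⟨sp, ep⟩ := a14_sum_eq M y hy.le
  have hks := a14_ks M
  have hn : 0 ≤ η' * y + C' * y ^ (3 / 4 : ℝ) := by positivity
  rw [a14_sum h10 M y hM h2, ← em, ← ep, ← mul_sub, abs_mul, abs_of_pos hG0, ← sp.tsum_sub sm]
  have hterm : ∀ e : ℕ, |bM M e * Ps1 (y / e) - bM M e * M1 (y / e)| ≤
      (η' * y + C' * y ^ (3 / 4 : ℝ)) * (|bM M e| * (e : ℝ) ^ (-(3 / 4) : ℝ)) := by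
    intro e
    rw [← mul_sub, abs_mul]
    calc |bM M e| * |Ps1 (y / e) - M1 (y / e)| ≤
          |bM M e| * ((η' * y + C' * y ^ (3 / 4 : ℝ)) * (e : ℝ) ^ (-(3 / 4) : ℝ)) :=
          mul_le_mul_of_nonneg_left (a14_term η' C' hη'p hC' hx y hy e) (abs_nonneg _)
      _ = _ := by ring
  have hsum := hsb.mul_left (η' * y + C' * y ^ (3 / 4 : ℝ))
  have herr : |∑' e : ℕ, (bM M e * Ps1 (y / e) - bM M e * M1 (y / e))| ≤
      (η' * y + C' * y ^ (3 / 4 : ℝ)) * (C * ks M) := by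
    calc |∑' e : ℕ, (bM M e * Ps1 (y / e) - bM M e * M1 (y / e))|
        ≤ ∑' e : ℕ, (η' * y + C' * y ^ (3 / 4 : ℝ)) * (|bM M e| * (e : ℝ) ^ (-(3 / 4) : ℝ)) := by
          rw [← Real.norm_eq_abs]
          exact tsum_of_norm_bounded hsum.hasSum fun e => by
            rw [Real.norm_eq_abs]
            exact hterm e
      _ = (η' * y + C' * y ^ (3 / 4 : ℝ)) * ∑' e : ℕ, |bM M e| * (e : ℝ) ^ (-(3 / 4) : ℝ) :=
          tsum_mul_left
      _ ≤ _ := mul_le_mul_of_nonneg_left hbb hn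
  calc GM C2 M * |∑' e : ℕ, (bM M e * Ps1 (y / e) - bM M e * M1 (y / e))|
      ≤ (2 * C2 * ks M ^ 3) * ((η' * y + C' * y ^ (3 / 4 : ℝ)) * (C * ks M)) :=
        mul_le_mul hG1 herr (abs_nonneg _) (by positivity)
    _ = ((η' * (2 * C2 * C)) * y + C' * (2 * C2 * C) * y ^ (3 / 4 : ℝ)) * ks M ^ 4 := by ring
    _ = (η * y + C' * (2 * C2 * C) * y ^ (3 / 4 : ℝ)) * ks M ^ 4 := by
        rw [hη', div_mul_cancel₀ _ (by positivity)]

end Pool.Agent.FGA
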